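import Pool.Agent.Helper81.LT.Inc

namespace Pool.Agent.Helper19.LT

open FirstOrder Language
open Pool.Agent.Helper81.LT

theorem Lt_trans (hC : CONV) (M : Type) [S : LA.Structure M] (h : M ⊨ PA) (a b c : M)
    (h1 : Lt M a b) (h2 : Lt M b c) : Lt M a c := by
  obtain ⟨i1, i2, i3, hS, _⟩ := hC M S h
  subst hS
  exact lt_trans (show a < b from h1) (show b < c from h2)

theorem x_lt (hC : CONV) {P : LA.Formula (Fin 2)} {M : Type} [LA.Structure M] {x : ℕ → M}
    {k b : M} (hD : Data P M x k b) (i d : ℕ) : Lt M (x i) (x (i + d + 1)) := by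
  induction d with
  | zero => exact hD.mono i
  | succ d ih => exact Lt_trans hC M hD.pa _ _ _ ih (hD.mono _)

theorem x_lt' (hC : CONV) {P : LA.Formula (Fin 2)} {M : Type} [LA.Structure M] {x : ℕ → M}
    {k b : M} (hD : Data P M x k b) {i j : ℕ} (h : i < j) : Lt M (x i) (x j) := by
  obtain ⟨d, rfl⟩ := Nat.exists_eq_add_of_lt h
  exact x_lt hC hD i d

theorem hom_iter (hC : CONV) {P : LA.Formula (Fin 2)} {M : Type} [LA.Structure M] {x : ℕ → M}
    {k b : M} (hD : Data P M x k b) {n : ℕ} (φ : LA.BoundedFormula Empty n) (i : ℕ)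
    (v : Fin n → M) (hv : ∀ j, Lt M (v j) (x i)) (d : ℕ) :
    Bd φ (fun m => x (i + 1 + m)) v ↔ Bd φ (fun m => x (i + d + 1 + m)) v := by
  induction d with
  | zero => exact Iff.rfl
  | succ d ih =>
    rw [ih]
    have hv' : ∀ j, Lt M (v j) (x (i + d)) := by
      intro j
      rcases Nat.eq_zero_or_pos d with hd | hd
      · subst hd
        exact hv j
      · exact Lt_trans hC M hD.pa _ _ _ (hv j) (x_lt' hC hD (by omega))
    have h := hD.hom n φ (i + d) v hv'
    rw [h]
    exact Iff.rfl

theorem tru (hC : CONV) : TRU := by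
  intro P M _ x k b hD I hI n φ
  induction φ with
  | falsum => intro i v hv; exact Iff.rfl
  | equal t₁ t₂ =>
    intro i v hv
    have key : ∀ t : LA.Term (Empty ⊕ Fin _),
        ((t.realize (Sum.elim Empty.elim v) : I) : M) =
          t.realize (Sum.elim Empty.elim fun j => (v j : M)) := by
      intro t
      have := HomClass.realize_term I.subtype (t := t) (v := Sum.elim Empty.elim v)
      rw [show ((t.realize (Sum.elim Empty.elim v) : I) : M) =
        I.subtype (t.realize (Sum.elim Empty.elim v)) from rfl, ← this]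
      congr 1
      funext j
      rcases j with j | j
      · exact j.elim
      · rfl
    show t₁.realize (Sum.elim Empty.elim v) = t₂.realize (Sum.elim Empty.elim v) ↔
      t₁.realize (Sum.elim Empty.elim fun j => (v j : M)) =
        t₂.realize (Sum.elim Empty.elim fun j => (v j : M))
    rw [← key, ← key, Subtype.coe_inj]
  | rel R ts =>
    intro i v hv
    have key : ∀ t : LA.Term (Empty ⊕ Fin _),
        ((t.realize (Sum.elim Empty.elim v) : I) : M) =
          t.realize (Sum.elim Empty.elim fun j => (v j : M)) := by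
      intro t
      have := HomClass.realize_term I.subtype (t := t) (v := Sum.elim Empty.elim v)
      rw [show ((t.realize (Sum.elim Empty.elim v) : I) : M) =
        I.subtype (t.realize (Sum.elim Empty.elim v)) from rfl, ← this]
      congr 1
      funext j
      rcases j with j | j
      · exact j.elim
      · rfl
    have e : (fun i => (ts i).realize (Sum.elim Empty.elim fun j => (v j : M))) =
        fun i => (((ts i).realize (Sum.elim Empty.elim v) : I) : M) := by
      funext i
      exact (key (ts i)).symm
    show Structure.RelMap R (fun i => (ts i).realize (Sum.elim Empty.elim v)) ↔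
      Structure.RelMap R fun i => (ts i).realize (Sum.elim Empty.elim fun j => (v j : M))
    rw [e]
    exact Iff.rfl
  | imp φ ψ ih1 ih2 =>
    intro i v hv
    show (φ.Realize Empty.elim v → ψ.Realize Empty.elim v) ↔ (Bd φ _ _ → Bd ψ _ _)
    rw [ih1 i v hv, ih2 i v hv]
  | @all n φ ih =>
    intro i v hv
    have snoc_coe : ∀ y : I, (fun j => ((Fin.snoc v y : Fin (n + 1) → I) j : M)) =
        (Fin.snoc (fun j => (v j : M)) (y : M) : Fin (n + 1) → M) := by
      intro y
      funext j
      refine Fin.lastCases ?_ (fun j => ?_) j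
      · simp
      · simp
    have hsn : ∀ (y : I) (i' : ℕ), i ≤ i' → Lt M (y : M) (x (i' + 1)) →
        ∀ j, Lt M ((Fin.snoc v y : Fin (n + 1) → I) j : M) (x (i' + 1)) := by
      intro y i' hi' hy j
      refine Fin.lastCases ?_ (fun j => ?_) j
      · simpa using hy
      · simp only [Fin.snoc_castSucc]
        exact Lt_trans hC M hD.pa _ _ _ (hv j) (x_lt' hC hD (by omega))
    constructor
    · intro h y hy
      have hyI : y ∈ I := (hI y).2 ⟨i + 1, hy⟩
      have h1 := h ⟨y, hyI⟩
      have h2 := (ih (i + 1) (Fin.snoc v ⟨y, hyI⟩) (hsn ⟨y, hyI⟩ i le_rfl hy)).1 h1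
      rw [snoc_coe] at h2
      have e : (fun m => x (i + 1 + 1 + m)) = fun m => x (i + 1 + (m + 1)) := by
        funext m
        congr 1
        omega
      rw [e] at h2
      exact h2
    · intro h y
      obtain ⟨j, hj⟩ := (hI (y : M)).1 y.2
      have hj' : Lt M (y : M) (x (i + j + 1)) :=
        Lt_trans hC M hD.pa _ _ _ hj (x_lt' hC hD (by omega))
      have h1 := (hom_iter hC hD (BoundedFormula.all φ) i (fun j => (v j : M)) hv j).1 h
      have h2 : Bd φ (fun k => x (i + j + 1 + (k + 1)))
          (Fin.snoc (fun j => (v j : M)) (y : M)) := h1 (y : M) hj'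
      rw [ih (i + j + 1) (Fin.snoc v y) (hsn y (i + j) (by omega) hj'), snoc_coe]
      have e : (fun m => x (i + j + 1 + 1 + m)) = fun m => x (i + j + 1 + (m + 1)) := by
        funext m
        congr 1
        omega
      rw [e]
      exact h2

end Pool.Agent.Helper19.LT
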